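import Mathlib
import Pool.Agent.H373R2.T7.BilF

set_option autoImplicit false

/-! Mean squares of convolutions along progressions. -/

namespace Pool.Agent.Q9.DE
open Finset
open Pool.Agent.H807R2.Dav
open Pool.Agent.H373R2.T7

lemma conv_l2 (X q Y : ℕ) (hq : 1 ≤ q) (a b : ℕ → ℂ) (V : ℝ)
    (hV : ∀ α : ℝ, ‖∑ m ∈ Icc 1 Y, b m * ee ((m : ℝ) * α)‖ ≤ V) :
    ∑ N ∈ Icc 1 X, ‖∑ m ∈ (Icc 1 Y).filter (fun m => q * m < N), a (N - q * m) * b m‖ ^ 2 ≤
      V ^ 2 * ∑ n ∈ Icc 1 X, ‖a n‖ ^ 2 := by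
  set L := X + q * Y with hL
  set M := L + 1 with hM
  have hM1 : 1 ≤ M := by omega
  have hM0 : (0 : ℝ) < M := by exact_mod_cast hM1
  set r : ℕ → ℂ := fun N => ∑ x ∈ (Icc 1 X ×ˢ Icc 1 Y).filter (fun x => x.1 + q * x.2 = N), a x.1 * b x.2 with hr
  -- identification
  have h1 : ∀ N ∈ Icc 1 X, ∑ m ∈ (Icc 1 Y).filter (fun m => q * m < N), a (N - q * m) * b m = r N := by
    intro N hN
    rw [mem_Icc] at hN
    rw [hr]
    refine sum_bij' (fun m _ => (N - q * m, m)) (fun x _ => x.2) ?_ ?_ ?_ ?_ ?_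
    · intro m hm
      rw [mem_filter, mem_Icc] at hm
      rw [mem_filter, mem_product, mem_Icc, mem_Icc]
      have h2 := hm.2
      refine ⟨⟨⟨?_, ?_⟩, hm.1⟩, ?_⟩
      · show 1 ≤ N - q * m
        omega
      · show N - q * m ≤ X
        omega
      · show N - q * m + q * m = N
        omega
    · intro x hx
      rw [mem_filter, mem_product, mem_Icc, mem_Icc] at hx
      rw [mem_filter, mem_Icc]
      refine ⟨hx.1.2, ?_⟩
      have := hx.2
      have := hx.1.1.1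
      omega
    · intro m _; rfl
    · intro x hx
      rw [mem_filter, mem_product, mem_Icc, mem_Icc] at hx
      have h2 := hx.2
      have h3 : N - q * x.2 = x.1 := by omega
      show (N - q * x.2, x.2) = x
      rw [h3]
    · intro m _; rfl
  -- Fourier transform
  have h2 : ∀ t : ℕ, ∑ N ∈ Icc 1 L, r N * ee ((t : ℝ) * ((((1 : ℤ) * N : ℤ) : ℝ) / M)) =
      (∑ n ∈ Icc 1 X, a n * ee ((t : ℝ) * ((((1 : ℤ) * n : ℤ) : ℝ) / M))) *
        (∑ m ∈ Icc 1 Y, b m * ee ((m : ℝ) * ((t : ℝ) * q / M))) := by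
    intro t
    rw [sum_mul_sum, ← sum_product']
    have h3 : ∀ N ∈ Icc 1 L, r N * ee ((t : ℝ) * ((((1 : ℤ) * N : ℤ) : ℝ) / M)) =
        ∑ x ∈ (Icc 1 X ×ˢ Icc 1 Y).filter (fun x => x.1 + q * x.2 = N),
          (a x.1 * ee ((t : ℝ) * ((((1 : ℤ) * x.1 : ℤ) : ℝ) / M))) * (b x.2 * ee ((x.2 : ℝ) * ((t : ℝ) * q / M))) := by
      intro N _
      rw [hr]
      simp only
      rw [sum_mul]
      apply sum_congr rfl
      intro x hx
      rw [mem_filter] at hx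
      have h4 : ee ((t : ℝ) * ((((1 : ℤ) * N : ℤ) : ℝ) / M)) =
          ee ((t : ℝ) * ((((1 : ℤ) * x.1 : ℤ) : ℝ) / M)) * ee ((x.2 : ℝ) * ((t : ℝ) * q / M)) := by
        rw [← ee_add]
        congr 1
        rw [← hx.2]
        push_cast
        ring
      rw [h4]
      ring
    rw [sum_congr rfl h3]
    rw [sum_fiberwise_of_maps_to (g := fun x : ℕ × ℕ => x.1 + q * x.2)]
    intro x hx
    rw [mem_product, mem_Icc, mem_Icc] at hx
    rw [mem_Icc]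
    have : q * x.2 ≤ q * Y := Nat.mul_le_mul_left _ hx.2.2
    constructor
    · omega
    · omega
  have h3 := parseval_Icc L M hM1 (by omega) r 1 (Or.inl rfl)
  have h4 := parseval_Icc X M hM1 (by omega) a 1 (Or.inl rfl)
  have h5 : (M : ℝ) * ∑ N ∈ Icc 1 L, ‖r N‖ ^ 2 ≤ V ^ 2 * (M * ∑ n ∈ Icc 1 X, ‖a n‖ ^ 2) := by
    rw [← h3, ← h4, mul_sum]
    apply sum_le_sum
    intro t _
    rw [h2, norm_mul, mul_pow, mul_comm]
    apply mul_le_mul_of_nonneg_right _ (by positivity)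
    exact pow_le_pow_left₀ (norm_nonneg _) (hV _) 2
  have h6 : ∑ N ∈ Icc 1 L, ‖r N‖ ^ 2 ≤ V ^ 2 * ∑ n ∈ Icc 1 X, ‖a n‖ ^ 2 := by
    have : (M : ℝ) * ∑ N ∈ Icc 1 L, ‖r N‖ ^ 2 ≤ M * (V ^ 2 * ∑ n ∈ Icc 1 X, ‖a n‖ ^ 2) := by
      refine h5.trans (le_of_eq ?_); ring
    exact le_of_mul_le_mul_left this hM0
  refine le_trans ?_ h6
  rw [sum_congr rfl fun N hN => by rw [h1 N hN]]
  apply sum_le_sum_of_subset_of_nonneg
  · apply Icc_subset_Icc_right; omega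
  · intro _ _ _; positivity

end Pool.Agent.Q9.DE
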