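import Mathlib
import Pool.Agent.H807R2.Dav1

set_option autoImplicit false

/-! The Moebius function on the integers prime to `q`. -/

namespace Pool.Agent.Q9.DE
open Finset ArithmeticFunction
open Pool.Agent.H807R2.Dav

/-- indicator function of the integers all of whose prime factors divide `q` -/
noncomputable def gq (q : ℕ) : ArithmeticFunction ℤ :=
  ⟨fun n => if n ≠ 0 ∧ n.primeFactors ⊆ q.primeFactors then 1 else 0, by simp⟩

/-- the Moebius function on the integers prime to `q` -/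
noncomputable def fq (q : ℕ) : ArithmeticFunction ℤ :=
  ⟨fun n => if n.Coprime q then ArithmeticFunction.moebius n else 0, by simp⟩

lemma gq_apply (q n : ℕ) : gq q n = if n ≠ 0 ∧ n.primeFactors ⊆ q.primeFactors then 1 else 0 := rfl

lemma fq_apply (q n : ℕ) : fq q n = if n.Coprime q then ArithmeticFunction.moebius n else 0 := rfl

lemma gq_mult (q : ℕ) : (gq q).IsMultiplicative := by
  refine ⟨by rw [gq_apply]; simp, ?_⟩
  intro m n _
  simp only [gq_apply]
  by_cases hm : m = 0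
  · simp [hm]
  by_cases hn : n = 0
  · simp [hn]
  rw [Nat.primeFactors_mul hm hn]
  by_cases h1 : m.primeFactors ⊆ q.primeFactors
  · by_cases h2 : n.primeFactors ⊆ q.primeFactors
    · rw [if_pos ⟨mul_ne_zero hm hn, union_subset h1 h2⟩, if_pos ⟨hm, h1⟩, if_pos ⟨hn, h2⟩]; rfl
    · rw [if_neg (fun h => h2 (subset_union_right.trans h.2)),
        if_neg (c := n ≠ 0 ∧ n.primeFactors ⊆ q.primeFactors) (fun h => h2 h.2), mul_zero]
  · rw [if_neg (fun h => h1 (subset_union_left.trans h.2)),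
      if_neg (c := m ≠ 0 ∧ m.primeFactors ⊆ q.primeFactors) (fun h => h1 h.2), zero_mul]

lemma fq_mult (q : ℕ) : (fq q).IsMultiplicative := by
  refine ⟨by rw [fq_apply]; simp, ?_⟩
  intro m n hmn
  simp only [fq_apply]
  by_cases h1 : m.Coprime q
  · by_cases h2 : n.Coprime q
    · rw [if_pos (Nat.Coprime.mul_left h1 h2), if_pos h1, if_pos h2,
        ArithmeticFunction.isMultiplicative_moebius.map_mul_of_coprime hmn]
    · rw [if_neg (fun h => h2 (Nat.Coprime.coprime_mul_left h)), if_neg h2, mul_zero]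
  · rw [if_neg (fun h => h1 (Nat.Coprime.coprime_mul_right h)), if_neg h1, zero_mul]

lemma fq_eq (q : ℕ) (hq : 1 ≤ q) : fq q = ArithmeticFunction.moebius * gq q := by
  rw [ArithmeticFunction.IsMultiplicative.eq_iff_eq_on_prime_powers _ (fq_mult q) _
    (ArithmeticFunction.isMultiplicative_moebius.mul (gq_mult q))]
  intro p i hp
  rcases Nat.eq_zero_or_pos i with rfl | hi
  · simp [fq_apply, gq_apply]
  rw [ArithmeticFunction.mul_apply, Nat.sum_divisorsAntidiagonal (fun a b => moebius a * gq q b),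
    Nat.sum_divisors_prime_pow hp]
  by_cases hpq : p ∣ q
  · have h1 : ¬ (p ^ i).Coprime q := by
      intro h
      have := Nat.Coprime.coprime_dvd_left (dvd_pow_self p hi.ne') h
      exact (Nat.Prime.coprime_iff_not_dvd hp).1 this hpq
    rw [fq_apply, if_neg h1]
    have h2 : ∀ k ∈ range (i + 1), (moebius (p ^ k) : ℤ) * gq q (p ^ i / p ^ k) = moebius (p ^ k) := by
      intro k hk
      rw [mem_range] at hk
      rw [Nat.pow_div (by omega) hp.pos, gq_apply, if_pos, mul_one]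
      refine ⟨pow_ne_zero _ hp.ne_zero, ?_⟩
      intro x hx
      rw [Nat.mem_primeFactors] at hx
      have hxp : x = p := (Nat.prime_dvd_prime_iff_eq hx.1 hp).1 (hx.1.dvd_of_dvd_pow hx.2.1)
      rw [hxp]
      exact Nat.mem_primeFactors.2 ⟨hp, hpq, by omega⟩
    rw [sum_congr rfl h2]
    obtain ⟨j, rfl⟩ : ∃ j, i = j + 1 := ⟨i - 1, by omega⟩
    rw [sum_range_succ', sum_range_succ', sum_eq_zero]
    · simp [ArithmeticFunction.moebius_apply_prime hp]
    · intro k hk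
      rw [ArithmeticFunction.moebius_apply_prime_pow hp (by omega), if_neg (by omega)]
  · have h1 : (p ^ i).Coprime q := Nat.Coprime.pow_left i ((Nat.Prime.coprime_iff_not_dvd hp).2 hpq)
    rw [fq_apply, if_pos h1]
    rw [sum_eq_single_of_mem i]
    · rw [Nat.div_self (pow_pos hp.pos _), gq_apply, if_pos (by simp), mul_one]
    · simp
    · intro k hk hki
      rw [mem_range] at hk
      rw [Nat.pow_div (by omega) hp.pos, gq_apply, if_neg, mul_zero]
      rintro ⟨_, h⟩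
      apply hpq
      have h2 : p ∈ (p ^ (i - k)).primeFactors := by
        rw [Nat.primeFactors_prime_pow (by omega) hp]; simp
      exact Nat.dvd_of_mem_primeFactors (h h2)

lemma moebius_mul_eq (q m : ℕ) : (moebius (q * m) : ℤ) = moebius q * fq q m := by
  rw [fq_apply]
  by_cases h : m.Coprime q
  · rw [if_pos h, ArithmeticFunction.isMultiplicative_moebius.map_mul_of_coprime h.symm]
  · rw [if_neg h, mul_zero]
    apply ArithmeticFunction.moebius_eq_zero_of_not_squarefree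
    intro hs
    exact h (Nat.coprime_of_squarefree_mul hs).symm

/-- reordering of a sum over divisors -/
lemma dirC (X : ℕ) (F : ℕ → ℕ → ℂ) :
    ∑ n ∈ Icc 1 X, ∑ x ∈ n.divisorsAntidiagonal, F x.1 x.2 = ∑ d ∈ Icc 1 X, ∑ k ∈ Icc 1 (X / d), F k d := by
  rw [sum_sigma', sum_sigma']
  refine sum_bij' (fun y _ => ⟨y.2.2, y.2.1⟩) (fun z _ => ⟨z.2 * z.1, (z.2, z.1)⟩) ?_ ?_ ?_ ?_ ?_
  · rintro ⟨n, x⟩ h
    rw [mem_sigma, Nat.mem_divisorsAntidiagonal, mem_Icc] at h
    obtain ⟨⟨h1, h2⟩, h3, h4⟩ := h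
    simp only at h1 h2 h3 h4 ⊢
    have hx1 : 0 < x.1 := Nat.pos_of_ne_zero (by rintro h; rw [h] at h3; omega)
    have hx2 : 0 < x.2 := Nat.pos_of_ne_zero (by rintro h; rw [h] at h3; omega)
    rw [mem_sigma, mem_Icc, mem_Icc]
    refine ⟨⟨hx2, ?_⟩, hx1, ?_⟩
    · show x.2 ≤ X
      calc x.2 = 1 * x.2 := (one_mul _).symm
        _ ≤ x.1 * x.2 := Nat.mul_le_mul_right _ hx1
        _ ≤ X := by omega
    · show x.1 ≤ X / x.2
      rw [Nat.le_div_iff_mul_le hx2, h3]; exact h2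
  · rintro ⟨d, k⟩ h
    rw [mem_sigma, mem_Icc, mem_Icc] at h
    obtain ⟨⟨h1, h2⟩, h3, h4⟩ := h
    simp only at h1 h2 h3 h4 ⊢
    rw [mem_sigma, Nat.mem_divisorsAntidiagonal, mem_Icc]
    refine ⟨⟨?_, ?_⟩, rfl, ?_⟩
    · exact Nat.mul_pos h3 h1
    · show k * d ≤ X
      rwa [Nat.le_div_iff_mul_le (by omega)] at h4
    · exact (Nat.mul_pos h3 h1).ne'
  · rintro ⟨n, x⟩ h
    rw [mem_sigma, Nat.mem_divisorsAntidiagonal, mem_Icc] at h
    obtain ⟨⟨h1, h2⟩, h3, h4⟩ := h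
    simp only at h1 h2 h3 h4 ⊢
    subst h3
    rfl
  · rintro ⟨d, k⟩ h; rfl
  · rintro ⟨n, x⟩ h; rfl

lemma sum_fq (q y : ℕ) (hq : 1 ≤ q) (β : ℝ) :
    ∑ m ∈ Icc 1 y, ((fq q m : ℤ) : ℂ) * ee ((m : ℝ) * β) =
      ∑ d ∈ Icc 1 y, ((gq q d : ℤ) : ℂ) * ∑ k ∈ Icc 1 (y / d), ((moebius k : ℤ) : ℂ) * ee ((k : ℝ) * (d * β)) := by
  have h1 : ∀ m ∈ Icc 1 y, ((fq q m : ℤ) : ℂ) * ee ((m : ℝ) * β) =
      ∑ x ∈ m.divisorsAntidiagonal, ((gq q x.2 : ℤ) : ℂ) * (((moebius x.1 : ℤ) : ℂ) * ee ((x.1 : ℝ) * (x.2 * β))) := by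
    intro m _
    rw [fq_eq q hq, ArithmeticFunction.mul_apply]
    push_cast
    rw [sum_mul]
    apply sum_congr rfl
    intro x hx
    rw [Nat.mem_divisorsAntidiagonal] at hx
    have h2 : (m : ℝ) * β = (x.1 : ℝ) * (x.2 * β) := by
      rw [← hx.1]; push_cast; ring
    rw [h2]
    ring
  rw [sum_congr rfl h1, dirC y (fun a b => ((gq q b : ℤ) : ℂ) * (((moebius a : ℤ) : ℂ) * ee ((a : ℝ) * (b * β))))]
  apply sum_congr rfl
  intro d _
  rw [mul_sum]

end Pool.Agent.Q9.DE
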