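import Mathlib

set_option autoImplicit false

/-! Diagonal sequences of sparse sets. -/

namespace Pool.Agent.Q9.DE
open Filter

/-- number of elements up to `X` -/
noncomputable def cnt (S : Set ℕ) (X : ℕ) : ℕ := (S ∩ Set.Icc 1 X).ncard

lemma cnt_mono (S S' : Set ℕ) (X : ℕ) (h : ∀ N, 1 ≤ N → N ≤ X → N ∈ S → N ∈ S') : cnt S X ≤ cnt S' X := by
  unfold cnt
  apply Set.ncard_le_ncard
  · rintro N ⟨h1, h2⟩
    exact ⟨h N h2.1 h2.2 h1, h2⟩
  · exact (Set.finite_Icc 1 X).subset Set.inter_subset_right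

theorem diag (E : ℕ → Set ℕ) (hmono : ∀ k, ∀ N, 3 ≤ N → N ∈ E k → N ∈ E (k + 1))
    (hcnt : ∀ k B : ℕ, ∃ X0 : ℕ, ∀ X : ℕ, X0 ≤ X → (cnt (E k) X : ℝ) ≤ X / Real.log X ^ B) :
    ∃ S : Set ℕ, (∀ B : ℕ, ∃ X0 : ℕ, ∀ X : ℕ, X0 ≤ X → (cnt S X : ℝ) ≤ X / Real.log X ^ B) ∧
      ∀ k, ∃ N0 : ℕ, ∀ N : ℕ, N0 ≤ N → N ∉ S → N ∉ E k := by
  choose x0 hx0 using fun k => hcnt k k
  have hm : ∀ k j N, k ≤ j → 3 ≤ N → N ∈ E k → N ∈ E j := by
    intro k j N hkj hN h
    induction j, hkj using Nat.le_induction with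
    | base => exact h
    | succ j _ ih => exact hmono j N hN ih
  set n : ℕ → ℕ := fun k => (∑ j ∈ Finset.range (k + 1), x0 j) + 3 + k with hn
  have hnx : ∀ k, x0 k ≤ n k := by
    intro k
    have : x0 k ≤ ∑ j ∈ Finset.range (k + 1), x0 j :=
      Finset.single_le_sum (f := x0) (fun _ _ => Nat.zero_le _) (by simp)
    simp only [hn]; omega
  have hnmono : ∀ k j, k ≤ j → n k ≤ n j := by
    intro k j hkj
    have : ∑ j ∈ Finset.range (k + 1), x0 j ≤ ∑ j ∈ Finset.range (j + 1), x0 j :=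
      Finset.sum_le_sum_of_subset (Finset.range_mono (by omega))
    simp only [hn]; omega
  have hn3 : ∀ k, 3 + k ≤ n k := by intro k; simp only [hn]; omega
  classical
  set κ : ℕ → ℕ := fun N => Nat.findGreatest (fun k => n k ≤ N) N with hκ
  have hκ1 : ∀ N, n 0 ≤ N → n (κ N) ≤ N := by
    intro N hN
    exact Nat.findGreatest_spec (P := fun k => n k ≤ N) (Nat.zero_le N) hN
  have hκ2 : ∀ N k, n k ≤ N → k ≤ κ N := by
    intro N k hk
    exact Nat.le_findGreatest (P := fun k => n k ≤ N) (by have := hn3 k; omega) hk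
  have hκm : ∀ N M, N ≤ M → n 0 ≤ N → κ N ≤ κ M := by
    intro N M hNM hN
    exact hκ2 M (κ N) ((hκ1 N hN).trans hNM)
  refine ⟨{N | n 0 ≤ N ∧ N ∈ E (κ N)}, ?_, ?_⟩
  · intro B
    refine ⟨max (n B) (n 0), fun X hX => ?_⟩
    have hXB : n B ≤ X := le_trans (le_max_left _ _) hX
    have hX0 : n 0 ≤ X := le_trans (le_max_right _ _) hX
    have h1 : cnt {N | n 0 ≤ N ∧ N ∈ E (κ N)} X ≤ cnt (E (κ X)) X := by
      apply cnt_mono
      rintro N _ hNX ⟨h2, h3⟩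
      have := hn3 0
      exact hm (κ N) (κ X) N (hκm N X hNX h2) (by omega) h3
    have h2 := hx0 (κ X) X ((hnx _).trans (hκ1 X hX0))
    have h3 : B ≤ κ X := hκ2 X B hXB
    have hX3 : 3 ≤ X := by have := hn3 0; omega
    have hL1 : 1 ≤ Real.log X := by
      rw [Real.le_log_iff_exp_le (by positivity)]
      have : (3 : ℝ) ≤ X := by exact_mod_cast hX3
      linarith [Real.exp_one_lt_d9]
    calc ((cnt {N | n 0 ≤ N ∧ N ∈ E (κ N)} X : ℕ) : ℝ) ≤ cnt (E (κ X)) X := by exact_mod_cast h1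
      _ ≤ X / Real.log X ^ (κ X) := h2
      _ ≤ X / Real.log X ^ B := by
          apply div_le_div_of_nonneg_left (by positivity) (by positivity)
          exact pow_le_pow_right₀ hL1 h3
  · intro k
    refine ⟨max (n k) (n 0), fun N hN hNS hNE => hNS ?_⟩
    have hNk : n k ≤ N := le_trans (le_max_left _ _) hN
    have hN0 : n 0 ≤ N := le_trans (le_max_right _ _) hN
    have := hn3 0
    exact ⟨hN0, hm k (κ N) N (hκ2 N k hNk) (by omega) hNE⟩

end Pool.Agent.Q9.DE
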