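import Mathlib
import Pool.Agent.H373R2.T7.SupMu
import Pool.Agent.Q9.DE.Cop
import Pool.Agent.Q9.DE.Tau

set_option autoImplicit false

/-! The exponential sum of the Moebius function on the integers prime to `q`. -/

namespace Pool.Agent.Q9.DE
open Finset ArithmeticFunction
open Pool.Agent.H807R2.Dav
open Pool.Agent.H373R2.T7 (muR muR_abs sup_mu)

lemma two_pow_omega (q : ℕ) (hq : 1 ≤ q) : ∏ p ∈ q.primeFactors, (2 : ℝ) ≤ (q.divisors.card : ℝ) := by
  have h1 : ((∏ p ∈ q.primeFactors, 2 : ℕ)) ≤ q.divisors.card := by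
    rw [Nat.card_divisors (by omega)]
    apply prod_le_prod' 
    intro p hp
    have : 1 ≤ q.factorization p := by
      have h2 := Nat.mem_primeFactors.1 hp
      exact (Nat.Prime.dvd_iff_one_le_factorization h2.1 h2.2.2).1 h2.2.1
    omega
  exact_mod_cast h1

/-- `n ↦ n^(-1/2)` -/
noncomputable def isq : ℕ →* ℝ where
  toFun n := 1 / √(n : ℝ)
  map_one' := by simp
  map_mul' m n := by
    rw [Nat.cast_mul, Real.sqrt_mul (by positivity)]
    rw [one_div, one_div, one_div, mul_inv]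

lemma gq_nonneg (q d : ℕ) : (0 : ℝ) ≤ ((gq q d : ℤ) : ℝ) := by
  rw [gq_apply]; split_ifs <;> simp

lemma gq_le_one (q d : ℕ) : ((gq q d : ℤ) : ℝ) ≤ 1 := by
  rw [gq_apply]; split_ifs <;> simp

lemma sum_gq_sqrt (q y : ℕ) (hq : 1 ≤ q) :
    ∑ d ∈ Icc 1 y, ((gq q d : ℤ) : ℝ) * (1 / √(d : ℝ)) ≤ (q.divisors.card : ℝ) ^ 2 := by
  have hlt : ∀ {p : ℕ}, p.Prime → ‖isq p‖ < 1 := by
    intro p hp
    have h1 : (1 : ℝ) < p := by exact_mod_cast hp.one_lt
    have h2 : 1 < √(p : ℝ) := by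
      rw [Real.lt_sqrt (by norm_num)]; linarith
    show ‖1 / √(p : ℝ)‖ < 1
    rw [Real.norm_of_nonneg (by positivity), div_lt_one (by positivity)]
    exact h2
  obtain ⟨h1, h2⟩ := EulerProduct.summable_and_hasSum_factoredNumbers_prod_filter_prime_geometric hlt q.primeFactors
  have h3 : ∑ d ∈ Icc 1 y, ((gq q d : ℤ) : ℝ) * (1 / √(d : ℝ)) =
      ∑ d ∈ (Icc 1 y).subtype (fun m => m ∈ Nat.factoredNumbers q.primeFactors), isq d := by
    rw [sum_subtype_eq_sum_filter (f := fun d => isq d)]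
    rw [sum_filter]
    apply sum_congr rfl
    intro d hd
    rw [mem_Icc] at hd
    rw [gq_apply]
    by_cases h : d ∈ Nat.factoredNumbers q.primeFactors
    · rw [if_pos h, if_pos]
      · simp [isq]
      · rw [Nat.mem_factoredNumbers] at h
        refine ⟨h.1, ?_⟩
        intro p hp
        exact h.2 p (Nat.mem_primeFactors_iff_mem_primeFactorsList.1 hp)
    · rw [if_neg h, if_neg]
      · simp
      · intro h'
        apply h
        rw [Nat.mem_factoredNumbers]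
        exact ⟨h'.1, fun p hp => h'.2 (Nat.mem_primeFactors_iff_mem_primeFactorsList.2 hp)⟩
  rw [h3]
  have h4 := sum_le_hasSum ((Icc 1 y).subtype (fun m => m ∈ Nat.factoredNumbers q.primeFactors))
    (fun d _ => by show (0:ℝ) ≤ 1 / √((d : ℕ) : ℝ); positivity) h2
  refine h4.trans ?_
  have h5 : ∏ p ∈ q.primeFactors with p.Prime, (1 - isq p)⁻¹ ≤ ∏ p ∈ q.primeFactors with p.Prime, (4 : ℝ) := by
    apply prod_le_prod
    · intro p hp
      have := hlt (mem_filter.1 hp).2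
      rw [Real.norm_eq_abs, abs_lt] at this
      have : 0 < 1 - isq p := by linarith
      positivity
    · intro p hp
      have hp2 : (2 : ℝ) ≤ p := by exact_mod_cast (mem_filter.1 hp).2.two_le
      have h6 : isq p ≤ 3 / 4 := by
        show 1 / √(p : ℝ) ≤ 3 / 4
        have h7 : 4 / 3 ≤ √(p : ℝ) := by
          apply Real.le_sqrt_of_sq_le; norm_num; linarith
        rw [div_le_div_iff₀ (by positivity) (by norm_num)]
        linarith
      have h8 : (1 / 4 : ℝ) ≤ 1 - isq p := by linarith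
      calc (1 - isq p)⁻¹ ≤ (1 / 4 : ℝ)⁻¹ := by
            apply inv_anti₀ (by norm_num) h8
        _ = 4 := by norm_num
  refine h5.trans ?_
  have h6 : q.primeFactors.filter Nat.Prime = q.primeFactors := by
    apply filter_true_of_mem
    intro p hp
    exact Nat.prime_of_mem_primeFactors hp
  rw [h6]
  have h7 : ∏ p ∈ q.primeFactors, (4 : ℝ) = (∏ p ∈ q.primeFactors, (2 : ℝ)) ^ 2 := by
    rw [← prod_pow]; norm_num
  rw [h7]
  exact pow_le_pow_left₀ (prod_nonneg fun _ _ => by norm_num) (two_pow_omega q hq) 2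

lemma tail_gq (q y : ℕ) (hq : 1 ≤ q) (D : ℝ) (hD : 0 < D) :
    ∑ d ∈ (Icc 1 y).filter (fun d : ℕ => D < (d : ℝ)), ((gq q d : ℤ) : ℝ) * (1 / (d : ℝ)) ≤
      (q.divisors.card : ℝ) ^ 2 / √D := by
  have h0 : 0 < √D := Real.sqrt_pos.2 hD
  rw [le_div_iff₀ h0]
  refine le_trans ?_ (sum_gq_sqrt q y hq)
  rw [sum_mul]
  refine le_trans (sum_le_sum (g := fun d : ℕ => ((gq q d : ℤ) : ℝ) * (1 / √(d : ℝ))) ?_) ?_
  · intro d hd
    rw [mem_filter, mem_Icc] at hd
    have hd0 : (0 : ℝ) < d := by exact_mod_cast hd.1.1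
    rw [mul_assoc]
    apply mul_le_mul_of_nonneg_left _ (gq_nonneg _ _)
    have h1 : √D ≤ √(d : ℝ) := Real.sqrt_le_sqrt hd.2.le
    have h2 : √(d : ℝ) * √(d : ℝ) = d := Real.mul_self_sqrt hd0.le
    have h3 : 0 < √(d : ℝ) := Real.sqrt_pos.2 hd0
    rw [div_mul_eq_mul_div, one_mul, div_le_div_iff₀ hd0 h3, one_mul]
    calc √D * √(d : ℝ) ≤ √(d : ℝ) * √(d : ℝ) := by gcongr
      _ = d := h2
  · apply sum_le_sum_of_subset_of_nonneg (filter_subset _ _)
    intro d _ _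
    exact mul_nonneg (gq_nonneg _ _) (by positivity)

lemma tau_sq_div_sum (X : ℕ) : ∑ n ∈ Icc 1 X, (n.divisors.card : ℝ) ^ 2 / n ≤ (1 + Real.log X) ^ 4 := by
  have e1 := dir X (fun d m => ((d.divisors.card : ℝ) / d) * ((m.divisors.card : ℝ) / m))
  have e2 : ∀ n ∈ Icc 1 X, (n.divisors.card : ℝ) ^ 2 / n ≤
      ∑ d ∈ n.divisors, ((d.divisors.card : ℝ) / d) * (((n / d).divisors.card : ℝ) / ((n / d : ℕ) : ℝ)) := by
    intro n hn
    rw [mem_Icc] at hn
    have hn0 : (0 : ℝ) < n := by exact_mod_cast hn.1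
    have e3 : ∀ d ∈ n.divisors, (n.divisors.card : ℝ) / n ≤
        ((d.divisors.card : ℝ) / d) * (((n / d).divisors.card : ℝ) / ((n / d : ℕ) : ℝ)) := by
      intro d hd
      have h1 := Nat.dvd_of_mem_divisors hd
      have hd0 : (0 : ℝ) < d := by exact_mod_cast Nat.pos_of_mem_divisors hd
      have h2 := tau_mul d (n / d)
      rw [Nat.mul_div_cancel' h1] at h2
      have h3 : (n.divisors.card : ℝ) ≤ (d.divisors.card : ℝ) * ((n / d).divisors.card : ℝ) := by exact_mod_cast h2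
      rw [div_mul_div_comm, Nat.cast_div h1 hd0.ne', mul_div_cancel₀ _ hd0.ne']
      gcongr
    have e4 := sum_le_sum e3
    rw [sum_const, nsmul_eq_mul] at e4
    calc (n.divisors.card : ℝ) ^ 2 / n = (n.divisors.card : ℝ) * ((n.divisors.card : ℝ) / n) := by ring
      _ ≤ _ := e4
  refine (sum_le_sum e2).trans ?_
  rw [e1]
  have hl := log1_nonneg X
  have e3 : ∀ d ∈ Icc 1 X, ∑ m ∈ Icc 1 (X / d), ((d.divisors.card : ℝ) / d) * ((m.divisors.card : ℝ) / m) ≤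
      (d.divisors.card : ℝ) / d * (1 + Real.log X) ^ 2 := by
    intro d hd
    rw [← mul_sum]
    apply mul_le_mul_of_nonneg_left _ (by positivity)
    refine le_trans ?_ (tau_div_sum X)
    apply sum_le_sum_of_subset_of_nonneg
    · exact Icc_subset_Icc_right (Nat.div_le_self _ _)
    · intro _ _ _; positivity
  refine (sum_le_sum e3).trans ?_
  rw [← sum_mul]
  calc _ ≤ (1 + Real.log X) ^ 2 * (1 + Real.log X) ^ 2 := by
        apply mul_le_mul_of_nonneg_right (tau_div_sum X) (by positivity)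
    _ = _ := by ring

/-- Davenport's estimate on the integers prime to `q` -/
theorem sup_fq (U : ℕ) : ∃ Y0 : ℕ, ∀ Y : ℕ, Y0 ≤ Y → ∀ y : ℕ, y ≤ Y → ∀ q : ℕ, 1 ≤ q → ∀ β : ℝ,
    ‖∑ m ∈ Icc 1 y, ((fq q m : ℤ) : ℂ) * ee ((m : ℝ) * β)‖ ≤
      Y * (1 / Real.log Y ^ U + (q.divisors.card : ℝ) ^ 2 / √√(Y : ℝ)) := by
  obtain ⟨N0, hN0⟩ := sup_mu (U + 2)
  have hlog : Filter.Tendsto (fun Y : ℕ => Real.log (Y : ℝ)) Filter.atTop Filter.atTop :=
    Real.tendsto_log_atTop.comp tendsto_natCast_atTop_atTop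
  have hq4 : Filter.Tendsto (fun Y : ℕ => √√(Y : ℝ)) Filter.atTop Filter.atTop :=
    Filter.Tendsto.comp Real.tendsto_sqrt_atTop (Filter.Tendsto.comp Real.tendsto_sqrt_atTop tendsto_natCast_atTop_atTop)
  have hpl : ∀ᶠ Y : ℕ in Filter.atTop, Real.log (Y : ℝ) ^ (U + 2) ≤ √√(Y : ℝ) := by
    have h1 := (isLittleO_log_rpow_atTop (r := 1 / (4 * ((U : ℝ) + 2))) (by positivity)).bound (c := 1) (by norm_num)
    have h2 := (tendsto_natCast_atTop_atTop (R := ℝ)).eventually h1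
    filter_upwards [h2, hlog.eventually_ge_atTop 1, Filter.eventually_ge_atTop 1] with Y h3 h4 h5
    have hY0 : (0 : ℝ) < Y := by exact_mod_cast h5
    rw [one_mul, Real.norm_of_nonneg (by linarith), Real.norm_of_nonneg (by positivity)] at h3
    calc Real.log (Y : ℝ) ^ (U + 2) ≤ ((Y : ℝ) ^ (1 / (4 * ((U : ℝ) + 2)))) ^ (U + 2) := by
          apply pow_le_pow_left₀ (by linarith) h3
      _ = (Y : ℝ) ^ (1 / 4 : ℝ) := by
          rw [← Real.rpow_natCast, ← Real.rpow_mul hY0.le]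
          congr 1
          push_cast
          field_simp
      _ = √√(Y : ℝ) := by
          rw [Real.sqrt_eq_rpow, Real.sqrt_eq_rpow, ← Real.rpow_mul hY0.le]
          norm_num
  have hev : ∀ᶠ Y : ℕ in Filter.atTop, (1 : ℝ) ≤ Real.log (Y : ℝ) ∧ 2 * 4 ^ (U + 2) ≤ Real.log (Y : ℝ) ∧
      (N0 : ℝ) ≤ √√(Y : ℝ) ∧ (2 : ℝ) ≤ √√(Y : ℝ) ∧ Real.log (Y : ℝ) ^ (U + 2) ≤ √√(Y : ℝ) ∧ 1 ≤ Y := by
    filter_upwards [hlog.eventually_ge_atTop 1, hlog.eventually_ge_atTop (2 * 4 ^ (U + 2)),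
      hq4.eventually_ge_atTop (N0 : ℝ), hq4.eventually_ge_atTop 2, hpl, Filter.eventually_ge_atTop 1] with
      Y a b c d e f
    exact ⟨a, b, c, d, e, f⟩
  obtain ⟨Y0, hY0⟩ := Filter.eventually_atTop.1 hev
  refine ⟨Y0, fun Y hY y hy q hq β => ?_⟩
  obtain ⟨hL1, hL2, hs1, hs2, hs3, hY1⟩ := hY0 Y hY
  set L := Real.log (Y : ℝ) with hLd
  have hYr : (0 : ℝ) < Y := by exact_mod_cast hY1
  have hL0 : 0 < L := by linarith
  rw [sum_fq q y hq β]
  set S : ℕ → ℂ := fun d => ∑ k ∈ Icc 1 (y / d), ((moebius k : ℤ) : ℂ) * ee ((k : ℝ) * (d * β)) with hS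
  -- trivial bound
  have hmu : ∀ k : ℕ, ‖((moebius k : ℤ) : ℂ)‖ ≤ 1 := by
    intro k
    rw [Complex.norm_intCast]
    exact_mod_cast ArithmeticFunction.abs_moebius_le_one (n := k)
  have htriv0 : ∀ d : ℕ, ‖S d‖ ≤ ((y / d : ℕ) : ℝ) := by
    intro d
    refine (norm_sum_le _ _).trans ?_
    calc ∑ k ∈ Icc 1 (y / d), ‖((moebius k : ℤ) : ℂ) * ee ((k : ℝ) * (d * β))‖ ≤ ∑ k ∈ Icc 1 (y / d), (1 : ℝ) := by
          apply sum_le_sum
          intro k _
          rw [norm_mul, norm_ee, mul_one]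
          exact hmu k
      _ = _ := by rw [sum_const, Nat.card_Icc, nsmul_eq_mul, mul_one]; simp
  have hzW : ∀ d : ℕ, 1 ≤ d → ((y / d : ℕ) : ℝ) ≤ (Y : ℝ) * (1 / d) := by
    intro d hd
    have hd0 : (0 : ℝ) < d := by exact_mod_cast hd
    refine (Nat.cast_div_le).trans ?_
    rw [mul_one_div]
    have : (y : ℝ) ≤ Y := by exact_mod_cast hy
    gcongr
  have hbig : ∀ d ∈ Icc 1 y, (d : ℝ) ≤ √(Y : ℝ) → ‖S d‖ ≤ (4 ^ (U + 2) / L ^ (U + 2)) * ((Y : ℝ) * (1 / d)) := by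
    intro d hd hdY
    rw [mem_Icc] at hd
    have hd0 : (0 : ℝ) < d := by exact_mod_cast hd.1
    set z : ℕ := y / d with hz
    set W : ℝ := (Y : ℝ) * (1 / d) with hW
    have hWz : (z : ℝ) ≤ W := hzW d hd.1
    have hsY : √(Y : ℝ) * √(Y : ℝ) = Y := Real.mul_self_sqrt hYr.le
    have hsY0 : 0 < √(Y : ℝ) := Real.sqrt_pos.2 hYr
    have hWY : √(Y : ℝ) ≤ W := by
      rw [hW, mul_one_div, le_div_iff₀ hd0]
      calc √(Y : ℝ) * d ≤ √(Y : ℝ) * √(Y : ℝ) := by gcongr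
        _ = Y := hsY
    have hW0 : 0 < W := hsY0.trans_le hWY
    have hsW : √√(Y : ℝ) ≤ √W := Real.sqrt_le_sqrt hWY
    have hsW0 : 0 < √W := Real.sqrt_pos.2 hW0
    have hWW : √W * √W = W := Real.mul_self_sqrt hW0.le
    rcases le_or_gt (z : ℝ) (√W) with h | h
    · have h1 : ‖S d‖ ≤ √W := (htriv0 d).trans h
      refine h1.trans ?_
      have h2 : L ^ (U + 2) ≤ √W := hs3.trans hsW
      have h3 : (1 : ℝ) ≤ 4 ^ (U + 2) := one_le_pow₀ (by norm_num)
      have h4 : 0 < L ^ (U + 2) := by positivity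
      rw [div_mul_eq_mul_div, le_div_iff₀ h4]
      calc √W * L ^ (U + 2) ≤ √W * √W := by gcongr
        _ = 1 * W := by rw [hWW, one_mul]
        _ ≤ 4 ^ (U + 2) * W := by gcongr
    · have hz1 : √√(Y : ℝ) ≤ z := hsW.trans h.le
      have hzN : N0 ≤ z := by exact_mod_cast hs1.trans hz1
      have h1 := hN0 z hzN (d * β)
      have h2 : ‖S d‖ ≤ z / Real.log z ^ (U + 2) := by
        refine le_trans (le_of_eq ?_) h1
        rw [hS]
        simp only
        congr 1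
      refine h2.trans ?_
      have h3 : L / 4 ≤ Real.log z := by
        have h4 : Real.log (√√(Y : ℝ)) = L / 4 := by
          rw [Real.log_sqrt (by positivity), Real.log_sqrt (by positivity)]; ring
        rw [← h4]
        apply Real.log_le_log (by positivity) hz1
      have h5 : (L / 4) ^ (U + 2) ≤ Real.log z ^ (U + 2) := pow_le_pow_left₀ (by positivity) h3 _
      calc (z : ℝ) / Real.log z ^ (U + 2) ≤ W / (L / 4) ^ (U + 2) := by
            apply div_le_div₀ hW0.le hWz (by positivity) h5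
        _ = (4 ^ (U + 2) / L ^ (U + 2)) * W := by
            rw [div_pow]; field_simp
  -- sum
  have h1 : ‖∑ d ∈ Icc 1 y, ((gq q d : ℤ) : ℂ) * S d‖ ≤ ∑ d ∈ Icc 1 y, ((gq q d : ℤ) : ℝ) * ‖S d‖ := by
    refine (norm_sum_le _ _).trans (le_of_eq ?_)
    apply sum_congr rfl
    intro d _
    rw [norm_mul, Complex.norm_intCast, abs_of_nonneg (gq_nonneg q d)]
  refine h1.trans ?_
  have h2 : ∀ d ∈ Icc 1 y, ((gq q d : ℤ) : ℝ) * ‖S d‖ ≤
      (4 ^ (U + 2) / L ^ (U + 2)) * (Y : ℝ) * (1 / d) +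
        (Y : ℝ) * (if √(Y : ℝ) < (d : ℝ) then ((gq q d : ℤ) : ℝ) * (1 / d) else 0) := by
    intro d hd
    have hd1 := (mem_Icc.1 hd).1
    have hd0 : (0 : ℝ) < d := by exact_mod_cast hd1
    by_cases hc : √(Y : ℝ) < (d : ℝ)
    · rw [if_pos hc]
      have h3 : ‖S d‖ ≤ (Y : ℝ) * (1 / d) := (htriv0 d).trans (hzW d hd1)
      have h4 : ((gq q d : ℤ) : ℝ) * ‖S d‖ ≤ ((gq q d : ℤ) : ℝ) * ((Y : ℝ) * (1 / d)) :=
        mul_le_mul_of_nonneg_left h3 (gq_nonneg q d)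
      have h5 : 0 ≤ (4 ^ (U + 2) / L ^ (U + 2)) * (Y : ℝ) * (1 / d) := by positivity
      calc _ ≤ ((gq q d : ℤ) : ℝ) * ((Y : ℝ) * (1 / d)) := h4
        _ = (Y : ℝ) * (((gq q d : ℤ) : ℝ) * (1 / d)) := by ring
        _ ≤ _ := by linarith
    · rw [if_neg hc, mul_zero, add_zero]
      have h3 := hbig d hd (not_lt.1 hc)
      calc ((gq q d : ℤ) : ℝ) * ‖S d‖ ≤ 1 * ‖S d‖ := mul_le_mul_of_nonneg_right (gq_le_one q d) (norm_nonneg _)
        _ = ‖S d‖ := one_mul _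
        _ ≤ _ := h3
        _ = _ := by ring
  refine (sum_le_sum h2).trans ?_
  rw [sum_add_distrib, ← mul_sum, ← mul_sum, ← sum_filter, mul_add]
  apply add_le_add
  · rcases Nat.eq_zero_or_pos y with hy0 | hy0
    · rw [hy0]; simp
      positivity
    have h3 : ∑ d ∈ Icc 1 y, (1 / (d : ℝ)) ≤ 2 * L := by
      refine (sum_inv_Icc y hy0).trans ?_
      have : Real.log (y : ℝ) ≤ L := Real.log_le_log (by exact_mod_cast hy0) (by exact_mod_cast hy)
      linarith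
    calc 4 ^ (U + 2) / L ^ (U + 2) * (Y : ℝ) * ∑ d ∈ Icc 1 y, (1 / (d : ℝ)) ≤
        4 ^ (U + 2) / L ^ (U + 2) * (Y : ℝ) * (2 * L) := by gcongr
      _ = (2 * 4 ^ (U + 2)) / L * ((Y : ℝ) * (1 / L ^ U)) := by
          rw [pow_succ L, pow_succ L]; field_simp
      _ ≤ 1 * ((Y : ℝ) * (1 / L ^ U)) := by
          apply mul_le_mul_of_nonneg_right _ (by positivity)
          rw [div_le_one hL0]; exact hL2
      _ = _ := one_mul _
  · apply mul_le_mul_of_nonneg_left _ hYr.le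
    exact tail_gq q y hq (√(Y : ℝ)) (Real.sqrt_pos.2 hYr)

end Pool.Agent.Q9.DE
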