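import Mathlib
import Pool.Agent.Q9.DE.Sup
import Pool.Agent.Q9.DE.Conv

set_option autoImplicit false

/-! The mean value of the correlations of the primes and the Moebius function along the diagonal. -/

namespace Pool.Agent.Q9.DE
open Finset ArithmeticFunction
open Pool.Agent.H807R2.Dav

/-- `g₁(m) = μ(m)` -/
noncomputable def g1 (m : ℕ) : ℝ := ((moebius m : ℤ) : ℝ)

/-- `g₂(m) = μ(m) log m` -/
noncomputable def g2 (m : ℕ) : ℝ := ((moebius m : ℤ) : ℝ) * Real.log m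

/-- `∑ Λ(n) g(N - n)` over `1 ≤ n < N`, `n ≡ N (mod q)` -/
noncomputable def T (g : ℕ → ℝ) (N q : ℕ) : ℝ :=
  ∑ n ∈ (Ico 1 N).filter (fun n => n ≡ N [MOD q]), vonMangoldt n * g (N - n)

lemma T_eq (g : ℕ → ℝ) (X N q : ℕ) (hq : 1 ≤ q) (hN : N ≤ X) :
    T g N q = ∑ m ∈ (Icc 1 (X / q)).filter (fun m => q * m < N), vonMangoldt (N - q * m) * g (q * m) := by
  unfold T
  refine sum_bij' (fun n _ => (N - n) / q) (fun m _ => N - q * m) ?_ ?_ ?_ ?_ ?_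
  · intro n hn
    rw [mem_filter, mem_Ico] at hn
    have hd : q ∣ N - n := (Nat.modEq_iff_dvd' (by omega)).1 hn.2
    obtain ⟨m, hm⟩ := hd
    rw [hm, Nat.mul_div_cancel_left _ (by omega), mem_filter, mem_Icc]
    have hm0 : 1 ≤ m := by
      rcases Nat.eq_zero_or_pos m with h | h
      · rw [h] at hm; omega
      · exact h
    refine ⟨⟨hm0, ?_⟩, by omega⟩
    rw [Nat.le_div_iff_mul_le (by omega), Nat.mul_comm]
    omega
  · intro m hm
    rw [mem_filter, mem_Icc] at hm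
    have h1 : 1 ≤ q * m := Nat.mul_pos hq hm.1.1
    rw [mem_filter, mem_Ico]
    refine ⟨by omega, ?_⟩
    rw [Nat.modEq_iff_dvd' (by omega)]
    exact ⟨m, by omega⟩
  · intro n hn
    rw [mem_filter, mem_Ico] at hn
    have hd : q ∣ N - n := (Nat.modEq_iff_dvd' (by omega)).1 hn.2
    show N - q * ((N - n) / q) = n
    rw [Nat.mul_div_cancel' hd]
    omega
  · intro m hm
    rw [mem_filter, mem_Icc] at hm
    show (N - (N - q * m)) / q = m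
    have : N - (N - q * m) = q * m := by omega
    rw [this, Nat.mul_div_cancel_left _ (by omega)]
  · intro n hn
    rw [mem_filter, mem_Ico] at hn
    have hd : q ∣ N - n := (Nat.modEq_iff_dvd' (by omega)).1 hn.2
    have h1 : q * ((N - n) / q) = N - n := Nat.mul_div_cancel' hd
    have h2 : N - (N - n) = n := by omega
    rw [h1, h2]

lemma abel_mono (s : ℕ → ℂ) (w : ℕ → ℝ) (V : ℝ) (hV : 0 ≤ V) (hw : ∀ m, 1 ≤ m → w m ≤ w (m + 1)) (hw1 : 0 ≤ w 1)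
    (Y : ℕ) (hY : 1 ≤ Y) (hs : ∀ y, y ≤ Y → ‖∑ m ∈ Icc 1 y, s m‖ ≤ V) :
    ‖∑ m ∈ Icc 1 Y, ((w m : ℝ) : ℂ) * s m‖ ≤ 2 * w Y * V := by
  have key : ∀ y, 1 ≤ y → y ≤ Y → 0 ≤ w y ∧ ‖∑ m ∈ Icc 1 y, ((w m : ℝ) : ℂ) * s m - ((w y : ℝ) : ℂ) * ∑ m ∈ Icc 1 y, s m‖ ≤
      (w y - w 1) * V := by
    intro y hy
    induction y, hy using Nat.le_induction with
    | base => intro _; simp [hw1]
    | succ y hy ih =>
      intro hyY
      obtain ⟨i1, i2⟩ := ih (by omega)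
      have h1 := hw y hy
      refine ⟨by linarith, ?_⟩
      rw [sum_Icc_succ_top (by omega), sum_Icc_succ_top (by omega)]
      have h2 : ∑ m ∈ Icc 1 y, ((w m : ℝ) : ℂ) * s m + ((w (y + 1) : ℝ) : ℂ) * s (y + 1) -
          ((w (y + 1) : ℝ) : ℂ) * (∑ m ∈ Icc 1 y, s m + s (y + 1)) =
          (∑ m ∈ Icc 1 y, ((w m : ℝ) : ℂ) * s m - ((w y : ℝ) : ℂ) * ∑ m ∈ Icc 1 y, s m) -
            ((w (y + 1) - w y : ℝ) : ℂ) * ∑ m ∈ Icc 1 y, s m := by
        push_cast; ring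
      rw [h2]
      refine (norm_sub_le _ _).trans ?_
      have h3 : ‖((w (y + 1) - w y : ℝ) : ℂ) * ∑ m ∈ Icc 1 y, s m‖ ≤ (w (y + 1) - w y) * V := by
        rw [norm_mul, Complex.norm_real, Real.norm_of_nonneg (by linarith)]
        exact mul_le_mul_of_nonneg_left (hs y (by omega)) (by linarith)
      calc _ ≤ (w y - w 1) * V + (w (y + 1) - w y) * V := add_le_add i2 h3
        _ = _ := by ring
  obtain ⟨k1, k2⟩ := key Y hY le_rfl
  have h1 : ‖((w Y : ℝ) : ℂ) * ∑ m ∈ Icc 1 Y, s m‖ ≤ w Y * V := by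
    rw [norm_mul, Complex.norm_real, Real.norm_of_nonneg k1]
    exact mul_le_mul_of_nonneg_left (hs Y le_rfl) k1
  have h2 : ∑ m ∈ Icc 1 Y, ((w m : ℝ) : ℂ) * s m =
      (∑ m ∈ Icc 1 Y, ((w m : ℝ) : ℂ) * s m - ((w Y : ℝ) : ℂ) * ∑ m ∈ Icc 1 Y, s m) + ((w Y : ℝ) : ℂ) * ∑ m ∈ Icc 1 Y, s m := by
    ring
  rw [h2]
  refine (norm_add_le _ _).trans ?_
  have h3 : 0 ≤ w 1 * V := mul_nonneg hw1 hV
  nlinarith

/-- the two functions `g₁`, `g₂` -/
def IsG (g : ℕ → ℝ) : Prop := g = g1 ∨ g = g2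

lemma g_form (g : ℕ → ℝ) (hg : IsG g) (q : ℕ) (hq : 1 ≤ q) : ∃ w : ℕ → ℝ, (∀ m, 1 ≤ m → w m ≤ w (m + 1)) ∧ 0 ≤ w 1 ∧
    (∀ X : ℕ, 3 ≤ X → ∀ m, 1 ≤ m → q * m ≤ X → w m ≤ Real.log X) ∧
    ∀ m, 1 ≤ m → g (q * m) = w m * (((moebius q : ℤ) : ℝ) * ((fq q m : ℤ) : ℝ)) := by
  have hlog3 : ∀ X : ℕ, 3 ≤ X → 1 ≤ Real.log X := by
    intro X hX
    rw [Real.le_log_iff_exp_le (by positivity)]
    have : (3 : ℝ) ≤ X := by exact_mod_cast hX
    linarith [Real.exp_one_lt_d9]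
  rcases hg with rfl | rfl
  · refine ⟨fun _ => 1, fun _ _ => le_rfl, zero_le_one, fun X hX _ _ _ => hlog3 X hX, fun m _ => ?_⟩
    unfold g1
    rw [moebius_mul_eq]
    push_cast; ring
  · refine ⟨fun m => Real.log ((q * m : ℕ) : ℝ), ?_, ?_, ?_, ?_⟩
    · intro m hm
      apply Real.log_le_log
      · exact_mod_cast Nat.mul_pos hq hm
      · exact_mod_cast Nat.mul_le_mul_left q (by omega)
    · apply Real.log_natCast_nonneg
    · intro X _ m hm h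
      apply Real.log_le_log
      · exact_mod_cast Nat.mul_pos hq hm
      · exact_mod_cast h
    · intro m _
      unfold g2
      rw [moebius_mul_eq]
      push_cast; ring

lemma lam_sq (X : ℕ) (hX : 1 ≤ X) : ∑ n ∈ Icc 1 X, ‖((vonMangoldt n : ℝ) : ℂ)‖ ^ 2 ≤ X * Real.log X ^ 2 := by
  have h1 : ∀ n ∈ Icc 1 X, ‖((vonMangoldt n : ℝ) : ℂ)‖ ^ 2 ≤ Real.log X ^ 2 := by
    intro n hn
    rw [mem_Icc] at hn
    rw [Complex.norm_real, Real.norm_of_nonneg vonMangoldt_nonneg]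
    apply pow_le_pow_left₀ vonMangoldt_nonneg
    refine vonMangoldt_le_log.trans ?_
    apply Real.log_le_log
    · exact_mod_cast hn.1
    · exact_mod_cast hn.2
  refine (sum_le_sum h1).trans (le_of_eq ?_)
  rw [sum_const, Nat.card_Icc, nsmul_eq_mul]
  simp

/-- one modulus -/
lemma mean_one (g : ℕ → ℝ) (hg : IsG g) (X q : ℕ) (hX : 3 ≤ X) (hq : 1 ≤ q) (hqX : q ≤ X) (V : ℝ) (hV0 : 0 ≤ V)
    (hV : ∀ y, y ≤ X / q → ∀ β : ℝ, ‖∑ m ∈ Icc 1 y, ((fq q m : ℤ) : ℂ) * ee ((m : ℝ) * β)‖ ≤ V) :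
    ∑ N ∈ Icc 1 X, |T g N q| ≤ 2 * X * Real.log X ^ 2 * V := by
  obtain ⟨w, w1, w2, w3, w4⟩ := g_form g hg q hq
  set Y := X / q with hY
  have hY1 : 1 ≤ Y := (Nat.le_div_iff_mul_le (by omega)).2 (by omega)
  have hqY : q * Y ≤ X := Nat.mul_div_le X q
  have hX0 : (0 : ℝ) < X := by positivity
  have hL1 : 1 ≤ Real.log X := by
    rw [Real.le_log_iff_exp_le (by positivity)]
    have : (3 : ℝ) ≤ X := by exact_mod_cast hX
    linarith [Real.exp_one_lt_d9]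
  set b : ℕ → ℂ := fun m => ((g (q * m) : ℝ) : ℂ) with hb
  set a : ℕ → ℂ := fun n => ((vonMangoldt n : ℝ) : ℂ) with ha
  have hmu : ‖((moebius q : ℤ) : ℂ)‖ ≤ 1 := by
    rw [Complex.norm_intCast]
    exact_mod_cast ArithmeticFunction.abs_moebius_le_one (n := q)
  have hbV : ∀ α : ℝ, ‖∑ m ∈ Icc 1 Y, b m * ee ((m : ℝ) * α)‖ ≤ 2 * Real.log X * V := by
    intro α
    have h1 : ∑ m ∈ Icc 1 Y, b m * ee ((m : ℝ) * α) =
        ((moebius q : ℤ) : ℂ) * ∑ m ∈ Icc 1 Y, ((w m : ℝ) : ℂ) * (((fq q m : ℤ) : ℂ) * ee ((m : ℝ) * α)) := by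
      rw [mul_sum]
      apply sum_congr rfl
      intro m hm
      rw [mem_Icc] at hm
      rw [hb]
      simp only
      rw [w4 m hm.1]
      push_cast
      ring
    rw [h1, norm_mul]
    have h2 := abel_mono (fun m => ((fq q m : ℤ) : ℂ) * ee ((m : ℝ) * α)) w V hV0 w1 w2 Y hY1 (fun y hy => hV y hy α)
    have h3 : w Y ≤ Real.log X := w3 X hX Y hY1 hqY
    calc _ ≤ 1 * (2 * w Y * V) := mul_le_mul hmu h2 (norm_nonneg _) zero_le_one
      _ ≤ 2 * Real.log X * V := by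
          rw [one_mul]
          have := mul_le_mul_of_nonneg_right h3 hV0
          nlinarith
  have h1 := conv_l2 X q Y hq a b (2 * Real.log X * V) hbV
  have h2 : ∀ N ∈ Icc 1 X, ‖∑ m ∈ (Icc 1 Y).filter (fun m => q * m < N), a (N - q * m) * b m‖ ^ 2 = |T g N q| ^ 2 := by
    intro N hN
    rw [mem_Icc] at hN
    rw [T_eq g X N q hq hN.2, ← Real.norm_eq_abs, ← Complex.norm_real]
    congr 2
    rw [ha, hb]
    push_cast
    rfl
  rw [sum_congr rfl h2] at h1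
  have h3 : ∑ n ∈ Icc 1 X, ‖a n‖ ^ 2 ≤ X * Real.log X ^ 2 := lam_sq X (by omega)
  have h4 : (∑ N ∈ Icc 1 X, |T g N q|) ^ 2 ≤ X * ∑ N ∈ Icc 1 X, |T g N q| ^ 2 := by
    have := sq_sum_le_card_mul_sum_sq (s := Icc 1 X) (f := fun N => |T g N q|)
    rwa [Nat.card_Icc, Nat.add_sub_cancel] at this
  have h5 : (∑ N ∈ Icc 1 X, |T g N q|) ^ 2 ≤ (2 * X * Real.log X ^ 2 * V) ^ 2 := by
    refine h4.trans ?_
    calc (X : ℝ) * ∑ N ∈ Icc 1 X, |T g N q| ^ 2 ≤ X * ((2 * Real.log X * V) ^ 2 * (X * Real.log X ^ 2)) := by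
          apply mul_le_mul_of_nonneg_left _ hX0.le
          exact h1.trans (mul_le_mul_of_nonneg_left h3 (by positivity))
      _ = _ := by ring
  have h6 : 0 ≤ 2 * X * Real.log X ^ 2 * V := by positivity
  exact (pow_le_pow_iff_left₀ (sum_nonneg fun _ _ => abs_nonneg _) h6 two_ne_zero).1 h5

end Pool.Agent.Q9.DE
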