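import Mathlib
import Pool.Agent.Q9.DE.Mean

set_option autoImplicit false

/-! The mean value over all moduli. -/

namespace Pool.Agent.Q9.DE
open Finset ArithmeticFunction Filter
open Pool.Agent.H807R2.Dav

/-- `(log X) ^ (1/k)` -/
noncomputable def rt (k : ℕ) (x : ℝ) : ℝ := x ^ (1 / (k : ℝ))

lemma rt_pow (k : ℕ) (hk : 1 ≤ k) (x : ℝ) (hx : 0 ≤ x) : rt k x ^ k = x := by
  unfold rt
  rw [← Real.rpow_natCast, ← Real.rpow_mul hx]
  have : (1 / (k : ℝ)) * k = 1 := by
    have : (k : ℝ) ≠ 0 := by positivity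
    field_simp
  rw [this, Real.rpow_one]

theorem mean_T (k : ℕ) (hk : 1 ≤ k) (A : ℕ) : ∃ X0 : ℕ, ∀ X : ℕ, X0 ≤ X → ∀ Q : ℕ,
    (Q : ℝ) ≤ X / Real.exp (rt k (Real.log X)) → ∀ g : ℕ → ℝ, IsG g →
    ∑ q ∈ Icc 1 Q, ∑ N ∈ Icc 1 X, |T g N q| ≤ (X : ℝ) ^ 2 / Real.log X ^ A := by
  set U : ℕ := k * (A + 10) with hU
  obtain ⟨Y0, hY0⟩ := sup_fq U
  have hlog : Tendsto (fun X : ℕ => Real.log (X : ℝ)) atTop atTop :=
    Real.tendsto_log_atTop.comp tendsto_natCast_atTop_atTop
  have hrt : Tendsto (fun X : ℕ => rt k (Real.log (X : ℝ))) atTop atTop :=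
    (tendsto_rpow_atTop (by positivity)).comp hlog
  have hexp : ∀ᶠ l : ℝ in atTop, 128 * l ^ (k * (A + 6)) ≤ Real.exp (l / 4) := by
    have h1 := (isLittleO_pow_exp_pos_mul_atTop (k * (A + 6)) (b := 1 / 4) (by norm_num)).bound (c := 1 / 128) (by norm_num)
    filter_upwards [h1, eventually_ge_atTop 0] with l h2 h3
    rw [Real.norm_of_nonneg (by positivity), Real.norm_of_nonneg (by positivity)] at h2
    have h4 : (1 / 4 : ℝ) * l = l / 4 := by ring
    rw [h4] at h2
    linarith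
  have hev : ∀ᶠ X : ℕ in atTop, (1 : ℝ) ≤ Real.log X ∧ (2 : ℝ) ^ (U + 4) ≤ Real.log X ∧
      2 ≤ rt k (Real.log (X : ℝ)) ∧ 128 * rt k (Real.log (X : ℝ)) ^ (k * (A + 6)) ≤ Real.exp (rt k (Real.log (X : ℝ)) / 4) ∧
      2 * ((Y0 : ℝ) + 1) ≤ rt k (Real.log (X : ℝ)) ∧ 3 ≤ X := by
    filter_upwards [hlog.eventually_ge_atTop 1, hlog.eventually_ge_atTop ((2 : ℝ) ^ (U + 4)),
      hrt.eventually_ge_atTop 2, hrt.eventually hexp, hrt.eventually_ge_atTop (2 * ((Y0 : ℝ) + 1)),
      eventually_ge_atTop 3] with X a b c d e f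
    exact ⟨a, b, c, d, e, f⟩
  obtain ⟨X0, hX0⟩ := eventually_atTop.1 hev
  refine ⟨X0, fun X hX Q hQ g hg => ?_⟩
  obtain ⟨hL1, hL2, hl2, hlexp, hlY, hX3⟩ := hX0 X hX
  set L := Real.log (X : ℝ) with hL
  set l := rt k L with hl
  have hXr : (0 : ℝ) < X := by positivity
  have hL0 : 0 < L := by linarith
  have hlk : l ^ k = L := rt_pow k hk L hL0.le
  have hel : 0 < Real.exp l := Real.exp_pos _
  -- each modulus
  have hone : ∀ q ∈ Icc 1 Q, ∑ N ∈ Icc 1 X, |T g N q| ≤
      2 * X ^ 2 * L ^ 2 * ((2 ^ U / L ^ (A + 10)) * (1 / q) + (2 / Real.exp (l / 4)) * ((q.divisors.card : ℝ) ^ 2 / q)) := by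
    intro q hq
    rw [mem_Icc] at hq
    have hq0 : (0 : ℝ) < q := by exact_mod_cast hq.1
    have hqQ : (q : ℝ) ≤ Q := by exact_mod_cast hq.2
    have hqe : (q : ℝ) * Real.exp l ≤ X := by
      have := hqQ.trans hQ
      rwa [le_div_iff₀ hel] at this
    have hXq : Real.exp l ≤ (X : ℝ) / q := by rw [le_div_iff₀ hq0]; linarith
    have hqX : q ≤ X := by
      have h1 : (1 : ℝ) ≤ Real.exp l := Real.one_le_exp (by linarith)
      have : (q : ℝ) ≤ X := by nlinarith
      exact_mod_cast this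
    set Y := X / q with hY
    have hYle : (Y : ℝ) ≤ X / q := Nat.cast_div_le
    have hYge : Real.exp l / 2 ≤ Y := by
      have h1 : (X : ℝ) / q < Y + 1 := by
        rw [div_lt_iff₀ hq0]
        have := Nat.lt_mul_div_succ X (show 0 < q by omega)
        rw [mul_comm]
        exact_mod_cast this
      have h2 : 2 ≤ Real.exp l := by linarith [Real.add_one_le_exp l]
      linarith
    have hY0r : (0 : ℝ) < Y := lt_of_lt_of_le (by positivity) hYge
    have hYY0 : Y0 ≤ Y := by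
      have h1 : (Y0 : ℝ) ≤ Y := by
        have := Real.add_one_le_exp l
        linarith
      exact_mod_cast h1
    have hlogY : l / 2 ≤ Real.log Y := by
      have h1 : Real.log (Real.exp l / 2) ≤ Real.log Y := Real.log_le_log (by positivity) hYge
      rw [Real.log_div hel.ne' (by norm_num), Real.log_exp] at h1
      have h2 : Real.log 2 ≤ 1 := by linarith [Real.log_two_lt_d9]
      linarith
    have hlogYU : L ^ (A + 10) / 2 ^ U ≤ Real.log Y ^ U := by
      calc L ^ (A + 10) / 2 ^ U = (l / 2) ^ U := by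
            rw [div_pow, hU, pow_mul l, hlk]
        _ ≤ _ := pow_le_pow_left₀ (by linarith) hlogY _
    have hsq : Real.exp (l / 4) / 2 ≤ √√(Y : ℝ) := by
      apply Real.le_sqrt_of_sq_le
      apply Real.le_sqrt_of_sq_le
      have h1 : ((Real.exp (l / 4) / 2) ^ 2) ^ 2 = Real.exp l / 16 := by
        rw [← pow_mul, div_pow, ← Real.exp_nat_mul]
        congr 1
        · congr 1; push_cast; ring
        · norm_num
      rw [h1]
      linarith
    set V : ℝ := Y * (1 / Real.log Y ^ U + (q.divisors.card : ℝ) ^ 2 / √√(Y : ℝ)) with hV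
    have hlogY0 : 0 < Real.log Y := by linarith
    have hV0 : 0 ≤ V := by positivity
    have h1 := mean_one g hg X q hX3 hq.1 hqX V hV0 (fun y hy β => hY0 Y hYY0 y hy q hq.1 β)
    refine h1.trans ?_
    have h2 : V ≤ (X / q) * (2 ^ U / L ^ (A + 10) + (q.divisors.card : ℝ) ^ 2 * (2 / Real.exp (l / 4))) := by
      rw [hV]
      apply mul_le_mul hYle _ (by positivity) (by positivity)
      apply add_le_add
      · rw [div_le_div_iff₀ (by positivity) (by positivity), one_mul]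
        rw [div_le_iff₀ (by positivity)] at hlogYU
        linarith
      · rw [div_eq_mul_inv]
        apply mul_le_mul_of_nonneg_left _ (by positivity)
        rw [inv_eq_one_div, div_le_div_iff₀ (by positivity) (by positivity), one_mul]
        linarith
    calc 2 * (X : ℝ) * L ^ 2 * V ≤ 2 * (X : ℝ) * L ^ 2 *
          ((X / q) * (2 ^ U / L ^ (A + 10) + (q.divisors.card : ℝ) ^ 2 * (2 / Real.exp (l / 4)))) := by
          apply mul_le_mul_of_nonneg_left h2 (by positivity)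
      _ = _ := by field_simp
  refine (sum_le_sum hone).trans ?_
  rw [← mul_sum, sum_add_distrib, ← mul_sum, ← mul_sum]
  have hQX : Q ≤ X := by
    have h1 : (1 : ℝ) ≤ Real.exp l := Real.one_le_exp (by linarith)
    have h2 : (X : ℝ) / Real.exp l ≤ X := div_le_self hXr.le h1
    exact_mod_cast hQ.trans h2
  have s1 : ∑ q ∈ Icc 1 Q, (1 / (q : ℝ)) ≤ 2 * L := by
    refine (harm_le Q X hQX).trans ?_
    linarith
  have s2 : ∑ q ∈ Icc 1 Q, ((q.divisors.card : ℝ) ^ 2 / q) ≤ 16 * L ^ 4 := by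
    refine le_trans (sum_le_sum_of_subset_of_nonneg (Icc_subset_Icc_right hQX) fun _ _ _ => by positivity) ?_
    refine (tau_sq_div_sum X).trans ?_
    calc (1 + Real.log (X : ℝ)) ^ 4 ≤ (2 * L) ^ 4 := by
          apply pow_le_pow_left₀ (by linarith); linarith
      _ = 16 * L ^ 4 := by ring
  have e1 : (2 ^ U / L ^ (A + 10)) * ∑ q ∈ Icc 1 Q, (1 / (q : ℝ)) ≤ (1 / 4) * (1 / L ^ (A + 2)) := by
    calc _ ≤ (2 ^ U / L ^ (A + 10)) * (2 * L) := by gcongr
      _ = (2 ^ (U + 1) / L ^ 7) * (1 / L ^ (A + 2)) := by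
          rw [pow_succ (2 : ℝ) U]
          have : L ^ (A + 10) = L ^ 7 * L ^ (A + 2) * L := by ring
          rw [this]; field_simp
      _ ≤ (1 / 4) * (1 / L ^ (A + 2)) := by
          apply mul_le_mul_of_nonneg_right _ (by positivity)
          rw [div_le_div_iff₀ (by positivity) (by norm_num)]
          have h7 : L ≤ L ^ 7 := le_self_pow₀ hL1 (by norm_num)
          have : (2 : ℝ) ^ (U + 4) = 2 ^ (U + 1) * 8 := by rw [pow_add, pow_add]; norm_num; ring
          nlinarith [pow_pos (show (0 : ℝ) < 2 by norm_num) (U + 1)]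
  have e2 : (2 / Real.exp (l / 4)) * ∑ q ∈ Icc 1 Q, ((q.divisors.card : ℝ) ^ 2 / q) ≤ (1 / 4) * (1 / L ^ (A + 2)) := by
    calc _ ≤ (2 / Real.exp (l / 4)) * (16 * L ^ 4) := by gcongr
      _ ≤ _ := by
          rw [div_mul_eq_mul_div, mul_one_div, div_div, div_le_div_iff₀ (Real.exp_pos _) (by positivity)]
          have h1 : l ^ (k * (A + 6)) = L ^ (A + 6) := by rw [pow_mul, hlk]
          rw [h1] at hlexp
          calc 2 * (16 * L ^ 4) * (4 * L ^ (A + 2)) = 128 * L ^ (A + 6) := by ring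
            _ ≤ Real.exp (l / 4) := hlexp
            _ = _ := by ring
  calc 2 * (X : ℝ) ^ 2 * L ^ 2 * _ ≤ 2 * (X : ℝ) ^ 2 * L ^ 2 * ((1 / 4) * (1 / L ^ (A + 2)) + (1 / 4) * (1 / L ^ (A + 2))) := by
        apply mul_le_mul_of_nonneg_left (add_le_add e1 e2) (by positivity)
    _ = (X : ℝ) ^ 2 / L ^ A := by
        have : L ^ (A + 2) = L ^ A * L ^ 2 := by ring
        rw [this]; field_simp; norm_num

end Pool.Agent.Q9.DE
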