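import Mathlib
import Pool.Agent.Q9.DE.Mean2
import Pool.Agent.Q9.DE.Diag

set_option autoImplicit false

/-! The diagonal Moebius-twisted Elliott-Halberstam sums for almost all integers. -/

namespace Pool.Agent.Q9.DE
open Finset ArithmeticFunction Filter

/-- the sum of the discrepancies over the moduli `q ≤ Q` prime to `N` -/
noncomputable def DQ (g : ℕ → ℝ) (N Q : ℕ) : ℝ :=
  ∑ q ∈ (Icc 1 Q).filter (fun q => q.Coprime N),
    |∑ n ∈ (Ico 1 N).filter (fun n => n ≡ N [MOD q]), vonMangoldt n * g (N - n) -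
      1 / (Nat.totient q : ℝ) * ∑ n ∈ Ico 1 N, vonMangoldt n * g (N - n)|

lemma DQ_mono (g : ℕ → ℝ) (N Q Q' : ℕ) (h : Q ≤ Q') : DQ g N Q ≤ DQ g N Q' := by
  unfold DQ
  apply sum_le_sum_of_subset_of_nonneg
  · exact filter_subset_filter _ (Icc_subset_Icc_right h)
  · intro _ _ _; positivity

lemma DQ_le (g : ℕ → ℝ) (N Q : ℕ) : DQ g N Q ≤
    ∑ q ∈ Icc 1 Q, |T g N q| + (∑ q ∈ Icc 1 Q, 1 / (Nat.totient q : ℝ)) * |T g N 1| := by
  have h1 : ∑ n ∈ Ico 1 N, vonMangoldt n * g (N - n) = T g N 1 := by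
    unfold T
    rw [filter_true_of_mem]
    intro n _
    exact Nat.modEq_one
  unfold DQ
  rw [h1, sum_mul, ← sum_add_distrib]
  refine le_trans (sum_le_sum_of_subset_of_nonneg (filter_subset _ _) fun _ _ _ => abs_nonneg _) ?_
  apply sum_le_sum
  intro q _
  refine (abs_sub _ _).trans ?_
  rw [abs_mul, abs_of_nonneg (show (0 : ℝ) ≤ 1 / (Nat.totient q : ℝ) by positivity)]
  exact le_rfl

/-- the level `N / exp ((log N)^(1/k))` -/
noncomputable def lev (k N : ℕ) : ℕ := ⌊(N : ℝ) / Real.exp (rt k (Real.log N))⌋₊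

lemma rt_diff (k : ℕ) (hk : 1 ≤ k) (u v : ℝ) (hu : 1 ≤ u) (huv : u ≤ v) : rt k v - rt k u ≤ v - u := by
  have ha : 1 ≤ rt k u := by
    unfold rt; exact Real.one_le_rpow hu (by positivity)
  have hab : rt k u ≤ rt k v := by
    unfold rt; exact Real.rpow_le_rpow (by linarith) huv (by positivity)
  have h1 := rt_pow k hk u (by linarith)
  have h2 := rt_pow k hk v (by linarith)
  set a := rt k u
  set b := rt k v
  have h3 : ∀ n : ℕ, 1 ≤ n → b - a ≤ b ^ n - a ^ n := by
    intro n hn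
    induction n, hn using Nat.le_induction with
    | base => simp
    | succ n hn ih =>
      have h4 : a ^ n ≤ b ^ n := pow_le_pow_left₀ (by linarith) hab n
      have h5 : 1 ≤ a ^ n := one_le_pow₀ ha
      calc b - a ≤ b ^ n - a ^ n := ih
        _ ≤ b ^ n * b - a ^ n * a := by nlinarith
        _ = b ^ (n + 1) - a ^ (n + 1) := by ring
  have := h3 k hk
  rw [h1, h2] at this
  exact this

lemma lev_le (k N X : ℕ) (hk : 1 ≤ k) (hN : 3 ≤ N) (hNX : N ≤ X) :
    (N : ℝ) / Real.exp (rt k (Real.log N)) ≤ X / Real.exp (rt k (Real.log X)) := by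
  have hN0 : (0 : ℝ) < N := by positivity
  have hNX' : (N : ℝ) ≤ X := by exact_mod_cast hNX
  have hX0 : (0 : ℝ) < X := by linarith
  have h1 : 1 ≤ Real.log N := by
    rw [Real.le_log_iff_exp_le (by positivity)]
    have : (3 : ℝ) ≤ N := by exact_mod_cast hN
    linarith [Real.exp_one_lt_d9]
  have h2 := rt_diff k hk (Real.log N) (Real.log X) h1 (Real.log_le_log hN0 hNX')
  have h3 : (N : ℝ) / Real.exp (rt k (Real.log N)) = Real.exp (Real.log N - rt k (Real.log N)) := by
    rw [Real.exp_sub, Real.exp_log hN0]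
  have h4 : (X : ℝ) / Real.exp (rt k (Real.log X)) = Real.exp (Real.log X - rt k (Real.log X)) := by
    rw [Real.exp_sub, Real.exp_log hX0]
  rw [h3, h4]
  apply Real.exp_le_exp.2
  linarith

/-- the exceptional set number `k` -/
def EX (k : ℕ) : Set ℕ := {N | ¬ ∀ g : ℕ → ℝ, IsG g → DQ g N (lev (k + 1) N) ≤ N / Real.log N ^ (k + 1)}

lemma EX_mono (k N : ℕ) (hN : 3 ≤ N) (h : N ∈ EX k) : N ∈ EX (k + 1) := by
  intro h1
  apply h
  intro g hg
  have h2 := h1 g hg
  have hL : 1 ≤ Real.log N := by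
    rw [Real.le_log_iff_exp_le (by positivity)]
    have : (3 : ℝ) ≤ N := by exact_mod_cast hN
    linarith [Real.exp_one_lt_d9]
  have h3 : lev (k + 1) N ≤ lev (k + 1 + 1) N := by
    unfold lev
    apply Nat.floor_le_floor
    apply div_le_div_of_nonneg_left (by positivity) (Real.exp_pos _)
    apply Real.exp_le_exp.2
    unfold rt
    apply Real.rpow_le_rpow_of_exponent_le hL
    apply one_div_le_one_div_of_le (by positivity)
    push_cast; linarith
  refine (DQ_mono g N _ _ h3).trans (h2.trans ?_)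
  apply div_le_div_of_nonneg_left (by positivity) (by positivity)
  exact pow_le_pow_right₀ hL (by omega)

/-- mean value of the discrepancies -/
lemma mean_D (k : ℕ) (hk : 1 ≤ k) (A : ℕ) : ∃ X0 : ℕ, ∀ X : ℕ, X0 ≤ X → ∀ g : ℕ → ℝ, IsG g →
    ∑ N ∈ Icc 3 X, DQ g N (lev k N) ≤ (X : ℝ) ^ 2 / Real.log X ^ A := by
  obtain ⟨X0, h0⟩ := mean_T k hk (A + 3)
  have hlog : Tendsto (fun X : ℕ => Real.log (X : ℝ)) atTop atTop :=
    Real.tendsto_log_atTop.comp tendsto_natCast_atTop_atTop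
  obtain ⟨X1, h1⟩ := eventually_atTop.1 (hlog.eventually_ge_atTop 5)
  refine ⟨max (max X0 X1) 3, fun X hX g hg => ?_⟩
  have hXX0 : X0 ≤ X := le_trans (le_trans (le_max_left _ _) (le_max_left _ _)) hX
  have hL5 : 5 ≤ Real.log X := h1 X (le_trans (le_trans (le_max_right _ _) (le_max_left _ _)) hX)
  have hX3 : 3 ≤ X := le_trans (le_max_right _ _) hX
  set L := Real.log (X : ℝ) with hL
  have hX0 : (0 : ℝ) < X := by positivity
  have hrt : rt k L ≤ L := by
    have := rt_diff k hk 1 L le_rfl (by linarith)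
    have h2 : rt k 1 = 1 := by unfold rt; simp
    rw [h2] at this; linarith
  have hone : ((1 : ℕ) : ℝ) ≤ X / Real.exp (rt k L) := by
    rw [Nat.cast_one, le_div_iff₀ (Real.exp_pos _), one_mul]
    calc Real.exp (rt k L) ≤ Real.exp L := Real.exp_le_exp.2 hrt
      _ = X := Real.exp_log hX0
  have s1 := h0 X hXX0 1 hone g hg
  rw [Icc_self, sum_singleton] at s1
  have s2 := h0 X hXX0 (lev k X) (Nat.floor_le (by positivity)) g hg
  have hphi : ∀ N ∈ Icc 3 X, ∑ q ∈ Icc 1 (lev k N), 1 / (Nat.totient q : ℝ) ≤ 4 * L ^ 2 := by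
    intro N hN
    rw [mem_Icc] at hN
    have h2 : lev k N ≤ X := by
      have h3 : (lev k N : ℝ) ≤ (N : ℝ) / Real.exp (rt k (Real.log N)) := Nat.floor_le (by positivity)
      have h4 : (N : ℝ) / Real.exp (rt k (Real.log N)) ≤ N := by
        apply div_le_self (by positivity)
        apply Real.one_le_exp
        unfold rt
        apply Real.rpow_nonneg (Real.log_natCast_nonneg N)
      have h5 : (lev k N : ℝ) ≤ N := h3.trans h4
      have : lev k N ≤ N := by exact_mod_cast h5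
      omega
    refine (inv_phi_sum (lev k N) X h2).trans ?_
    calc (1 + Real.log (X : ℝ)) ^ 2 ≤ (2 * L) ^ 2 := by
          apply pow_le_pow_left₀ (by linarith); linarith
      _ = _ := by ring
  have hsum : ∑ N ∈ Icc 3 X, DQ g N (lev k N) ≤
      ∑ N ∈ Icc 1 X, ∑ q ∈ Icc 1 (lev k X), |T g N q| + 4 * L ^ 2 * ∑ N ∈ Icc 1 X, |T g N 1| := by
    calc ∑ N ∈ Icc 3 X, DQ g N (lev k N) ≤
        ∑ N ∈ Icc 3 X, (∑ q ∈ Icc 1 (lev k X), |T g N q| + 4 * L ^ 2 * |T g N 1|) := by
          apply sum_le_sum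
          intro N hN
          refine (DQ_le g N (lev k N)).trans ?_
          apply add_le_add
          · apply sum_le_sum_of_subset_of_nonneg
            · apply Icc_subset_Icc_right
              rw [mem_Icc] at hN
              unfold lev
              exact Nat.floor_le_floor (lev_le k N X hk hN.1 hN.2)
            · intro _ _ _; positivity
          · exact mul_le_mul_of_nonneg_right (hphi N hN) (abs_nonneg _)
      _ ≤ ∑ N ∈ Icc 1 X, (∑ q ∈ Icc 1 (lev k X), |T g N q| + 4 * L ^ 2 * |T g N 1|) := by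
          apply sum_le_sum_of_subset_of_nonneg
          · exact Icc_subset_Icc_left (by norm_num)
          · intro _ _ _; positivity
      _ = _ := by rw [sum_add_distrib, ← mul_sum]
  refine hsum.trans ?_
  rw [sum_comm]
  have hL0 : 0 < L := by linarith
  calc _ ≤ (X : ℝ) ^ 2 / L ^ (A + 3) + 4 * L ^ 2 * ((X : ℝ) ^ 2 / L ^ (A + 3)) :=
        add_le_add s2 (mul_le_mul_of_nonneg_left s1 (by positivity))
    _ = ((1 + 4 * L ^ 2) / L ^ 3) * ((X : ℝ) ^ 2 / L ^ A) := by
        rw [pow_add]; field_simp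
    _ ≤ 1 * ((X : ℝ) ^ 2 / L ^ A) := by
        apply mul_le_mul_of_nonneg_right _ (by positivity)
        rw [div_le_one (by positivity)]
        nlinarith [mul_pos hL0 hL0]
    _ = _ := one_mul _

lemma markov (F : ℕ → ℝ) (hF : ∀ N, 0 ≤ F N) (S : Finset ℕ) (c M : ℝ) (hc : 0 < c) (h : ∑ N ∈ S, F N ≤ M) :
    ((S.filter (fun N => c < F N)).card : ℝ) ≤ M / c := by
  rw [le_div_iff₀ hc]
  calc ((S.filter (fun N => c < F N)).card : ℝ) * c = ∑ N ∈ S.filter (fun N => c < F N), c := by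
        rw [sum_const, nsmul_eq_mul]
    _ ≤ ∑ N ∈ S.filter (fun N => c < F N), F N := sum_le_sum fun N hN => (mem_filter.1 hN).2.le
    _ ≤ ∑ N ∈ S, F N := sum_le_sum_of_subset_of_nonneg (filter_subset _ _) fun N _ _ => hF N
    _ ≤ M := h

lemma DQ_nonneg (g : ℕ → ℝ) (N Q : ℕ) : 0 ≤ DQ g N Q := sum_nonneg fun _ _ => abs_nonneg _

lemma EX_cnt (k B : ℕ) : ∃ X0 : ℕ, ∀ X : ℕ, X0 ≤ X → (cnt (EX k) X : ℝ) ≤ X / Real.log X ^ B := by
  obtain ⟨X0, h0⟩ := mean_D (k + 1) (by omega) (2 * B + k + 3)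
  have hlog : Tendsto (fun X : ℕ => Real.log (X : ℝ)) atTop atTop :=
    Real.tendsto_log_atTop.comp tendsto_natCast_atTop_atTop
  have hpl : ∀ᶠ X : ℕ in atTop, 2 * Real.log (X : ℝ) ^ (B + 1) ≤ X := by
    have h1 := (Real.isLittleO_pow_log_id_atTop (n := B + 1)).bound (c := 1 / 2) (by norm_num)
    have h2 := (tendsto_natCast_atTop_atTop (R := ℝ)).eventually h1
    filter_upwards [h2, hlog.eventually_ge_atTop 1] with X h3 h4
    rw [Real.norm_of_nonneg (by positivity)] at h3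
    simp only [id] at h3
    rw [Real.norm_of_nonneg (by positivity)] at h3
    linarith
  obtain ⟨X1, h1⟩ := eventually_atTop.1 (hpl.and (hlog.eventually_ge_atTop 3))
  refine ⟨max (max X0 X1) 3, fun X hX => ?_⟩
  have hXX0 : X0 ≤ X := le_trans (le_trans (le_max_left _ _) (le_max_left _ _)) hX
  obtain ⟨hX2, hL3⟩ := h1 X (le_trans (le_trans (le_max_right _ _) (le_max_left _ _)) hX)
  have hX3 : 3 ≤ X := le_trans (le_max_right _ _) hX
  have hXr : (0 : ℝ) < X := by positivity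
  set L := Real.log (X : ℝ) with hL
  have hL0 : 0 < L := by linarith
  set c : ℝ := X / L ^ (B + k + 2) with hc
  have hc0 : 0 < c := by positivity
  set F : (ℕ → ℝ) → Finset ℕ := fun g => (Icc 3 X).filter (fun N => c < DQ g N (lev (k + 1) N)) with hF
  have hFc : ∀ g, IsG g → ((F g).card : ℝ) ≤ X / L ^ (B + 1) := by
    intro g hg
    refine (markov _ (fun N => DQ_nonneg g N _) (Icc 3 X) c _ hc0 (h0 X hXX0 g hg)).trans (le_of_eq ?_)
    rw [hc]
    have : L ^ (2 * B + k + 3) = L ^ (B + 1) * L ^ (B + k + 2) := by rw [← pow_add]; congr 1; ring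
    rw [this]
    field_simp
  set G : Finset ℕ := Icc 1 ⌊(X : ℝ) / L ^ (B + 1)⌋₊ with hG
  have hGc : (G.card : ℝ) ≤ X / L ^ (B + 1) := by
    rw [hG, Nat.card_Icc, Nat.add_sub_cancel]
    exact Nat.floor_le (by positivity)
  have hsub : EX k ∩ Set.Icc 1 X ⊆ ((G ∪ (F g1 ∪ F g2) : Finset ℕ) : Set ℕ) := by
    rintro N ⟨hNE, hN1, hNX⟩
    rw [mem_coe, mem_union, mem_union]
    by_cases hNG : (N : ℝ) ≤ X / L ^ (B + 1)
    · left
      rw [hG, mem_Icc]
      exact ⟨hN1, Nat.le_floor hNG⟩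
    right
    rw [not_le] at hNG
    have h2 : (2 : ℝ) ≤ X / L ^ (B + 1) := by rw [le_div_iff₀ (by positivity)]; exact hX2
    have hN3 : 3 ≤ N := by
      have : (2 : ℝ) < N := by linarith
      have : 2 < N := by exact_mod_cast this
      omega
    have hN0 : (0 : ℝ) < N := by positivity
    have hLN : Real.log N ≤ L := Real.log_le_log hN0 (by exact_mod_cast hNX)
    have hLN1 : 1 ≤ Real.log N := by
      rw [Real.le_log_iff_exp_le (by positivity)]
      have : (3 : ℝ) ≤ N := by exact_mod_cast hN3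
      linarith [Real.exp_one_lt_d9]
    have hcN : c ≤ N / Real.log N ^ (k + 1) := by
      calc c = (X / L ^ (B + 1)) / L ^ (k + 1) := by
            rw [hc, div_div, ← pow_add]; congr 2; ring
        _ ≤ N / Real.log N ^ (k + 1) := by
            apply div_le_div₀ hN0.le hNG.le (by positivity)
            exact pow_le_pow_left₀ (by linarith) hLN _
    have h3 : ∃ g, IsG g ∧ N / Real.log N ^ (k + 1) < DQ g N (lev (k + 1) N) := by
      by_contra h4
      push Not at h4
      exact hNE h4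
    obtain ⟨g, hg, h4⟩ := h3
    rcases hg with rfl | rfl
    · left
      rw [hF]
      simp only [mem_filter, mem_Icc]
      exact ⟨⟨hN3, hNX⟩, hcN.trans_lt h4⟩
    · right
      rw [hF]
      simp only [mem_filter, mem_Icc]
      exact ⟨⟨hN3, hNX⟩, hcN.trans_lt h4⟩
  have hcard : cnt (EX k) X ≤ G.card + ((F g1).card + (F g2).card) := by
    unfold cnt
    refine (Set.ncard_le_ncard hsub (Finset.finite_toSet _)).trans ?_
    rw [Set.ncard_coe_finset]
    refine (card_union_le _ _).trans ?_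
    exact Nat.add_le_add_left (card_union_le _ _) _
  calc (cnt (EX k) X : ℝ) ≤ G.card + ((F g1).card + (F g2).card) := by exact_mod_cast hcard
    _ ≤ X / L ^ (B + 1) + (X / L ^ (B + 1) + X / L ^ (B + 1)) :=
        add_le_add hGc (add_le_add (hFc g1 (Or.inl rfl)) (hFc g2 (Or.inr rfl)))
    _ = (3 / L) * (X / L ^ B) := by rw [pow_succ]; field_simp; ring
    _ ≤ 1 * (X / L ^ B) := by
        apply mul_le_mul_of_nonneg_right _ (by positivity)
        rw [div_le_one hL0]; exact hL3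
    _ = _ := one_mul _

/-- the exceptional set -/
theorem main0 : ∃ S : Set ℕ, (∀ B : ℕ, ∃ X0 : ℕ, ∀ X : ℕ, X0 ≤ X → (cnt S X : ℝ) ≤ X / Real.log X ^ B) ∧
    ∀ k : ℕ, ∃ N0 : ℕ, ∀ N : ℕ, N0 ≤ N → N ∉ S → ∀ g : ℕ → ℝ, IsG g →
      DQ g N (lev (k + 1) N) ≤ N / Real.log N ^ (k + 1) := by
  obtain ⟨S, h1, h2⟩ := diag EX (fun k N hN h => EX_mono k N hN h) EX_cnt
  refine ⟨S, h1, fun k => ?_⟩
  obtain ⟨N0, h3⟩ := h2 k
  refine ⟨N0, fun N hN hNS => ?_⟩
  have := h3 N hN hNS
  unfold EX at this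
  rw [Set.mem_ofPred_eq, not_not] at this
  exact this

end Pool.Agent.Q9.DE
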